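import Pool.Agent.Helper50_PN.Stmts

/-!
Module CNU: lower bound for the number of the unknowns.
-/

set_option autoImplicit false

namespace Pool.Agent.PN.H76

open Pool.Agent.PN

variable {n k : ℕ}

/-- the exponents with given jet part and given exponents of the coordinates -/
def bb (α : Fin n × Fin k → ℕ) (c : Fin n → ℕ) : Fin n × Fin (k + 1) → ℕ :=
  fun p => Fin.cons (α := fun _ => ℕ) (c p.1) (fun s => α (p.1, s)) p.2

theorem bb_zero (α : Fin n × Fin k → ℕ) (c : Fin n → ℕ) (l : Fin n) : bb α c (l, 0) = c l := rfl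

theorem bb_succ (α : Fin n × Fin k → ℕ) (c : Fin n → ℕ) (l : Fin n) (s : Fin k) :
    bb α c (l, s.succ) = α (l, s) := rfl

theorem Aof_bb (α : Fin n × Fin k → ℕ) (c : Fin n → ℕ) (l : Fin n) :
    Aof (bb α c) l = jA α l := rfl

theorem wtof_bb (α : Fin n × Fin k → ℕ) (c : Fin n → ℕ) : wtof (bb α c) = jwt α := rfl

theorem jA_le (α : Fin n × Fin k → ℕ) (l : Fin n) : jA α l ≤ jwt α := by
  unfold jA jwt
  refine le_trans (Finset.sum_le_sum fun s _ => ?_)
    (Finset.single_le_sum (f := fun l => ∑ s : Fin k, ((s : ℕ) + 1) * α (l, s))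
      (fun _ _ => Nat.zero_le _) (Finset.mem_univ l))
  exact Nat.le_mul_of_pos_left _ (Nat.succ_pos _)

theorem mem_JS (m : ℕ) (α : Fin n × Fin k → ℕ) :
    α ∈ JS n k m ↔ (∀ p, α p < m + 1) ∧ jwt α = m := by
  unfold JS
  rw [Finset.mem_filter, Fintype.mem_piFinset]
  simp only [Finset.mem_range]

theorem mem_US (N m δ B : ℕ) (b : Fin n × Fin (k + 1) → ℕ) :
    b ∈ US n N k m δ B ↔ (∀ p, b p < (N + n + 2) * m + 1) ∧
      (wtof b = m ∧ ∀ l, b (l, 0) + B ≤ N * (Aof b l - δ)) := by
  unfold US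
  rw [Finset.mem_filter, Fintype.mem_piFinset]
  simp only [Finset.mem_range]

theorem count_le (N B t c : ℕ) (hBN : B ≤ N) (hc : c < (N - B) * t) :
    c + B ≤ N * t := by
  obtain ⟨D, rfl⟩ := Nat.exists_eq_add_of_le hBN
  rw [Nat.add_sub_cancel_left] at hc
  have ht : 1 ≤ t := by
    rcases Nat.eq_zero_or_pos t with h | h
    · rw [h, Nat.mul_zero] at hc
      omega
    · exact h
  have h1 : B ≤ B * t := Nat.le_mul_of_pos_right B ht
  rw [Nat.add_mul]
  omega

theorem cnu : CnuStmt := by
  intro n N k m δ B _ hBN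
  classical
  have h1 : (N - B) ^ n * uu n k m δ = ∑ α ∈ JS n k m,
      (Fintype.piFinset fun l => Finset.range ((N - B) * (jA α l - δ))).card := by
    unfold uu
    rw [Finset.mul_sum]
    refine Finset.sum_congr rfl (fun α _ => ?_)
    rw [Fintype.card_piFinset]
    simp only [Finset.card_range]
    rw [Finset.prod_mul_distrib, Finset.prod_const, Finset.card_univ, Fintype.card_fin]
  rw [h1, ← Finset.card_sigma]
  refine Finset.card_le_card_of_injOn (fun x => bb x.1 x.2) ?_ ?_
  · rintro ⟨α, c⟩ hx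
    obtain ⟨hα, hc⟩ := Finset.mem_sigma.1 hx
    obtain ⟨hα1, hα2⟩ := (mem_JS m α).1 hα
    have hc' : ∀ l, c l < (N - B) * (jA α l - δ) := by
      intro l
      exact Finset.mem_range.1 (Fintype.mem_piFinset.1 hc l)
    refine (mem_US N m δ B _).2 ⟨?_, hα2, fun l => ?_⟩
    · rintro ⟨l, s⟩
      refine Fin.cases ?_ (fun s => ?_) s
      · have h2 := count_le N B _ _ hBN (hc' l)
        have h3 : N * (jA α l - δ) ≤ N * m :=
          Nat.mul_le_mul_left N ((Nat.sub_le _ _).trans (hα2 ▸ jA_le α l))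
        have h4 : (N + n + 2) * m = N * m + (n + 2) * m := by ring
        show c l < (N + n + 2) * m + 1
        rw [h4]
        have h5 := Nat.zero_le ((n + 2) * m)
        omega
      · have h2 := hα1 (l, s)
        have h4 : (N + n + 2) * m = m + (N + n + 1) * m := by ring
        show α (l, s) < (N + n + 2) * m + 1
        rw [h4]
        have h5 := Nat.zero_le ((N + n + 1) * m)
        omega
    · exact count_le N B _ _ hBN (hc' l)
  · rintro ⟨α, c⟩ _ ⟨α', c'⟩ _ h
    have h2 : bb α c = bb α' c' := h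
    have e1 : α = α' := by
      funext p
      have := congrFun h2 (p.1, p.2.succ)
      exact this
    have e2 : c = c' := by
      funext l
      exact congrFun h2 (l, 0)
    subst e1 e2
    rfl

end Pool.Agent.PN.H76
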